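import Pool.Agent.Helper7.PX.Goals2
import Pool.Agent.Helper88.TU.Fin

/-! # Project PX, packet ZD: chains from isolated primes in prescribed blocks -/

set_option autoImplicit false

open Finset Filter Topology

open scoped Classical

namespace Pool.Agent.Helper36.PX

open Pool.Agent.Helper7.PX

/-- If all primes of the window `(n, n + W]` are in blocks of length `l`, at most one in every block,
and there are at least `k + 1` of them, then the first ones are consecutive primes with large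
gaps. -/
theorem chain (k n l D U W : ℕ) (H : Finset ℕ) (hUD : U + l ≤ D)
    (hH : ∀ h ∈ H, ∀ h' ∈ H, h < h' → h + D ≤ h') (hW : ∀ h ∈ H, h + l ≤ W)
    (hWd : ∀ j ∈ Icc 1 W, (n + j).Prime → ∃ h ∈ H, j ∈ Ioc h (h + l))
    (h1 : ∀ h ∈ H, np n h l ≤ 1) (hk : k + 1 ≤ ∑ h ∈ H, np n h l) :
    ∃ s : ℕ, n < Nat.nth Nat.Prime s ∧ Nat.nth Nat.Prime (s + k) ≤ n + W ∧
      ∀ i < k, Nat.nth Nat.Prime (s + i) + U < Nat.nth Nat.Prime (s + i + 1) := by
  set p := Nat.nth Nat.Prime with hp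
  have hinf := Nat.infinite_setOfPred_prime
  have hmono : StrictMono p := Nat.nth_strictMono hinf
  have hprime : ∀ i, (p i).Prime := fun i => Nat.nth_mem_of_infinite hinf i
  set s₀ := Nat.count Nat.Prime (n + 1) with hs₀
  set e₀ := Nat.count Nat.Prime (n + W + 1) with he₀
  have hlow : ∀ i, s₀ ≤ i ↔ n + 1 ≤ p i := fun i => Nat.count_le_iff_le_nth hinf
  have hup : ∀ i, i < e₀ ↔ p i < n + W + 1 := fun i => Nat.lt_nth_iff_count_lt hinf
  set Pa : ℕ → Finset ℕ := fun h => (Ioc h (h + l)).filter (fun j => (n + j).Prime) with hPa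
  have hnp : ∀ h, np n h l = (Pa h).card := fun h => rfl
  have hT : ∑ h ∈ H, (Pa h).card ≤ e₀ - s₀ := by
    have hdis : ∀ a ∈ H, ∀ a' ∈ H, a ≠ a' → Disjoint (Pa a) (Pa a') := by
      intro a ha a' ha' hne
      rw [Finset.disjoint_left]
      intro j g1 g2
      have g3 := mem_Ioc.1 (mem_filter.1 g1).1
      have g4 := mem_Ioc.1 (mem_filter.1 g2).1
      rcases lt_or_gt_of_ne hne with g | g
      · have := hH a ha a' ha' g
        omega
      · have := hH a' ha' a ha g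
        omega
    rw [← card_biUnion hdis, ← Nat.card_Ico]
    refine card_le_card_of_injOn (fun j => Nat.count Nat.Prime (n + j)) ?_ ?_
    · intro j hj
      obtain ⟨a, ha, hja⟩ := mem_biUnion.1 hj
      obtain ⟨hjb, hjp⟩ := mem_filter.1 hja
      have g1 := mem_Ioc.1 hjb
      have g2 : p (Nat.count Nat.Prime (n + j)) = n + j := Nat.nth_count hjp
      have g3 := hW a ha
      simp only [coe_Ico, Set.mem_Ico]
      rw [hlow, hup, g2]
      omega
    · intro j hj j' hj' hjj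
      obtain ⟨a, ha, hja⟩ := mem_biUnion.1 hj
      obtain ⟨hjb, hjp⟩ := mem_filter.1 hja
      obtain ⟨a', ha', hja'⟩ := mem_biUnion.1 hj'
      obtain ⟨hjb', hjp'⟩ := mem_filter.1 hja'
      have g2 : p (Nat.count Nat.Prime (n + j)) = n + j := Nat.nth_count hjp
      have g3 : p (Nat.count Nat.Prime (n + j')) = n + j' := Nat.nth_count hjp'
      simp only at hjj
      rw [hjj, g3] at g2
      omega
  have hke : s₀ + k < e₀ := by
    have : k + 1 ≤ ∑ h ∈ H, (Pa h).card := hk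
    omega
  refine ⟨s₀, ?_, ?_, fun i hi => ?_⟩
  · have := (hlow s₀).1 le_rfl
    omega
  · have := (hup (s₀ + k)).1 hke
    omega
  · have g1 : n + 1 ≤ p (s₀ + i) := (hlow _).1 (by omega)
    have g2 : p (s₀ + i + 1) < n + W + 1 := (hup _).1 (by omega)
    have g3 : p (s₀ + i) < p (s₀ + i + 1) := hmono (Nat.lt_succ_self _)
    obtain ⟨j, hj⟩ : ∃ j, p (s₀ + i) = n + j := ⟨p (s₀ + i) - n, by omega⟩
    obtain ⟨j', hj'⟩ : ∃ j, p (s₀ + i + 1) = n + j := ⟨p (s₀ + i + 1) - n, by omega⟩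
    have q1 : (n + j).Prime := hj ▸ hprime _
    have q2 : (n + j').Prime := hj' ▸ hprime _
    obtain ⟨a, ha, ha1⟩ := hWd j (mem_Icc.2 ⟨by omega, by omega⟩) q1
    obtain ⟨b, hb, hb1⟩ := hWd j' (mem_Icc.2 ⟨by omega, by omega⟩) q2
    have ha2 := mem_Ioc.1 ha1
    have hb2 := mem_Ioc.1 hb1
    rcases lt_trichotomy a b with g | g | g
    · have := hH a ha b hb g
      omega
    · subst g
      exfalso
      have r1 := h1 a ha
      rw [hnp] at r1
      have r2 := Finset.card_le_one.1 r1 j (mem_filter.2 ⟨ha1, q1⟩) j' (mem_filter.2 ⟨hb1, q2⟩)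
      omega
    · have := hH b hb a ha g
      omega

theorem gexp {t : ℝ} (ht : 0 < t) : 4 * t * Real.exp (-(3 * Real.exp t)) ≤ Real.exp (-Real.exp t) := by
  have g1 : 4 * t ≤ Real.exp (2 * Real.exp t) := by
    have g2 : t + 1 ≤ Real.exp t := Real.add_one_le_exp t
    have g5 : 4 * t ≤ Real.exp (t + 2) := by
      have g6 : Real.exp (t + 2) = Real.exp t * (Real.exp 1 * Real.exp 1) := by
        rw [← Real.exp_add, ← Real.exp_add]
        norm_num
      have g7 := Real.exp_one_gt_d9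
      have g8 : 4 ≤ Real.exp 1 * Real.exp 1 := by nlinarith
      have g9 : Real.exp t * 4 ≤ Real.exp t * (Real.exp 1 * Real.exp 1) :=
        mul_le_mul_of_nonneg_left g8 (Real.exp_pos t).le
      rw [g6]
      linarith
    have g10 := Real.one_le_exp ht.le
    exact g5.trans (Real.exp_le_exp.2 (by linarith))
  calc 4 * t * Real.exp (-(3 * Real.exp t))
      ≤ Real.exp (2 * Real.exp t) * Real.exp (-(3 * Real.exp t)) :=
        mul_le_mul_of_nonneg_right g1 (Real.exp_pos _).le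
    _ = Real.exp (-Real.exp t) := by
        rw [← Real.exp_add]
        ring_nf

theorem wx {c x y lam : ℝ} (hc : 0 < c) (hx : 16 ≤ x) (e1 : Real.log x ^ 2 ≤ 1 / (2 * (c + 1)) * x)
    (hl : 0 < Real.log x) (hy : 0 ≤ Real.log y) (ly2 : Real.log y ≤ Real.log x)
    (hll : Real.log (Real.log x) ≤ Real.log x) (hlam2 : lam ≤ c / 2 * Real.log (Real.log x)) :
    lam * Real.log y ≤ x / 2 := by
  have g1 : lam * Real.log y ≤ c / 2 * Real.log x * Real.log x := by
    have g2 : lam ≤ c / 2 * Real.log x := by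
      have := mul_le_mul_of_nonneg_left hll (show 0 ≤ c / 2 by positivity)
      linarith
    exact mul_le_mul g2 ly2 hy (by positivity)
  have g3 : c * Real.log x ^ 2 ≤ x := by
    have g4 : c * Real.log x ^ 2 ≤ c * (1 / (2 * (c + 1)) * x) :=
      mul_le_mul_of_nonneg_left e1 hc.le
    have g5 : c * (1 / (2 * (c + 1)) * x) ≤ x := by
      have : c * (1 / (2 * (c + 1))) ≤ 1 := by
        rw [mul_one_div, div_le_one (by positivity)]
        linarith
      calc c * (1 / (2 * (c + 1)) * x) = c * (1 / (2 * (c + 1))) * x := by ring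
        _ ≤ 1 * x := mul_le_mul_of_nonneg_right this (by linarith)
        _ = x := one_mul x
    linarith
  have g6 : c / 2 * Real.log x * Real.log x = c * Real.log x ^ 2 / 2 := by ring
  linarith

/-- **ZD** -/
theorem zd (h : StmtFB) : StmtZD := by
  obtain ⟨c, C, hc, hC, h⟩ := h
  refine ⟨c / (8 * (C + 1)), 2 * (C + 1) ^ 2, by positivity, fun k hk => ?_⟩
  obtain ⟨lam0, x0, hx0⟩ := h k 1 hk one_pos le_rfl
  have hk0 : (1 : ℝ) ≤ k := by exact_mod_cast hk
  have hk2 : (1 : ℝ) ≤ (k : ℝ) ^ 2 := one_le_pow₀ hk0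
  obtain ⟨l1, hl1⟩ : ∃ l1 : ℝ, l1 = max lam0 1 := ⟨_, rfl⟩
  have hl1a : lam0 ≤ l1 := hl1 ▸ le_max_left _ _
  have hl1b : 1 ≤ l1 := hl1 ▸ le_max_right _ _
  obtain ⟨M, hM⟩ : ∃ M : ℕ, M = ⌈C * (k : ℝ) ^ 2⌉₊ := ⟨_, rfl⟩
  have hM1 : C * (k : ℝ) ^ 2 ≤ M := hM ▸ Nat.le_ceil _
  have hM2 : (M : ℝ) ≤ (C + 1) * (k : ℝ) ^ 2 := by
    have h1 : (M : ℝ) < C * (k : ℝ) ^ 2 + 1 := hM ▸ Nat.ceil_lt_add_one (by positivity)
    linarith
  have hM3 : (1 : ℝ) ≤ M := by
    have h1 : 0 < M := by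
      rw [hM]
      exact Nat.ceil_pos.2 (by positivity)
    exact_mod_cast h1
  have ev1 : ∀ᶠ x : ℝ in atTop, ‖Real.log x ^ 2‖ ≤ 1 / (2 * (c + 1)) * ‖id x‖ :=
    (Real.isLittleO_pow_log_id_atTop (n := 2)).bound (by positivity)
  have ev2 : ∀ᶠ x : ℝ in atTop, 4 ≤ Real.log x := Real.tendsto_log_atTop.eventually_ge_atTop 4
  have ev3 : ∀ᶠ x : ℝ in atTop, (8 * M + l1) / (c / 4) ≤ Real.log (Real.log x) :=
    (Real.tendsto_log_atTop.comp Real.tendsto_log_atTop).eventually_ge_atTop _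
  obtain ⟨X, hX⟩ := eventually_atTop.mp (ev1.and (ev2.and ev3))
  obtain ⟨B, hB⟩ : ∃ B : ℝ, B = 8 * (C + 1) ^ 2 * (k : ℝ) ^ 2 + (C + 1) * l1 := ⟨_, rfl⟩
  have hB0 : 0 ≤ B := by rw [hB]; positivity
  obtain ⟨A, hA⟩ : ∃ A : ℝ, A = 3 * Real.exp B := ⟨_, rfl⟩
  have hBA : B ≤ A := by
    have := Real.add_one_le_exp B
    rw [hA]
    linarith
  refine ⟨A, max X (max 16 (2 * x0 + 2)), fun x hx L hL1 hL2 => ?_⟩
  obtain ⟨e1, e2, e3⟩ := hX x (le_trans (le_max_left _ _) hx)
  have hx16 : 16 ≤ x := le_trans (le_trans (le_max_left _ _) (le_max_right _ _)) hx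
  have hx0' : 2 * (x0 : ℝ) + 2 ≤ x := le_trans (le_trans (le_max_right _ _) (le_max_right _ _)) hx
  rw [id, Real.norm_eq_abs, Real.norm_eq_abs, abs_of_nonneg (by positivity : 0 ≤ Real.log x ^ 2),
    abs_of_nonneg (by linarith : 0 ≤ x)] at e1
  have e3' : 8 * M + l1 ≤ c / 4 * Real.log (Real.log x) := by
    rw [div_le_iff₀ (by positivity)] at e3
    linarith
  have hll : Real.log (Real.log x) ≤ Real.log x := by
    have := Real.log_le_sub_one_of_pos (show 0 < Real.log x by linarith)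
    linarith
  set y : ℕ := ⌊x / 2⌋₊ with hy
  have y1 : (y : ℝ) ≤ x / 2 := Nat.floor_le (by linarith)
  have y2 : x / 2 < y + 1 := Nat.lt_floor_add_one _
  have y3 : x / 4 ≤ y := by linarith
  have y4 : x0 ≤ y := by
    have : (x0 : ℝ) ≤ y := by linarith
    exact_mod_cast this
  have ly1 : Real.log (x / 4) ≤ Real.log y := Real.log_le_log (by linarith) y3
  have ly2 : Real.log y ≤ Real.log x := Real.log_le_log (by linarith) (by linarith)
  have ly3 : Real.log x / 2 ≤ Real.log y := (Pool.Agent.Helper25.CG.quarter_log hx16).trans ly1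
  have ly4 : Real.log (Real.log x) / 2 ≤ Real.log (Real.log y) :=
    (Pool.Agent.Helper25.CG.half_log e2).trans (Real.log_le_log (by linarith) ly3)
  obtain ⟨lam, hlam⟩ : ∃ lam : ℝ, lam = 2 * M * (L + 4) + l1 := ⟨_, rfl⟩
  have hML : 2 * (M : ℝ) * L ≤ c / 4 * Real.log (Real.log x) := by
    have g1 : (M : ℝ) * L ≤ (C + 1) * (k : ℝ) ^ 2 *
        (c / (8 * (C + 1)) / (k : ℝ) ^ 2 * Real.log (Real.log x)) :=
      mul_le_mul hM2 hL2 hL1 (by positivity)
    have g2 : (C + 1) * (k : ℝ) ^ 2 *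
        (c / (8 * (C + 1)) / (k : ℝ) ^ 2 * Real.log (Real.log x)) =
        c / 8 * Real.log (Real.log x) := by
      have : (k : ℝ) ^ 2 ≠ 0 := by positivity
      have : C + 1 ≠ 0 := by positivity
      field_simp
    rw [g2] at g1
    linarith
  have hlam2 : lam ≤ c / 2 * Real.log (Real.log x) := by
    rw [hlam]
    linarith
  have hlam0 : 0 ≤ lam := by
    rw [hlam]
    positivity
  obtain ⟨D, hD⟩ : ∃ D : ℕ, D = ⌈(L + 2) * Real.log x⌉₊ := ⟨_, rfl⟩
  have hD1 : (L + 2) * Real.log x ≤ D := hD ▸ Nat.le_ceil _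
  have hD2 : (D : ℝ) ≤ 2 * (L + 3) * Real.log y := by
    have h1 : (D : ℝ) < (L + 2) * Real.log x + 1 := hD ▸ Nat.ceil_lt_add_one (by
      have : 0 ≤ Real.log x := by linarith
      positivity)
    have h2 : (L + 3) * (Real.log x / 2) ≤ (L + 3) * Real.log y :=
      mul_le_mul_of_nonneg_left ly3 (by linarith)
    linarith
  have hLx : 0 ≤ L * Real.log x := mul_nonneg hL1 (by linarith)
  have hDx : 2 * Real.log x ≤ D := by linarith
  have hD0 : 0 < D := by
    have : (0 : ℝ) < D := by linarith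
    exact_mod_cast this
  obtain ⟨H, hH⟩ : ∃ H : Finset ℕ, H = (range M).image (fun i => i * D) := ⟨_, rfl⟩
  have hHc : H.card = M := by
    rw [hH, card_image_of_injective, card_range]
    intro i j hij
    exact Nat.eq_of_mul_eq_mul_right hD0 hij
  have hly0 : 2 ≤ Real.log y := by linarith
  have hHw : ∀ h ∈ H, (h : ℝ) + 1 * Real.log y ≤ lam * Real.log y := by
    intro h hh
    rw [hH] at hh
    obtain ⟨i, hi, rfl⟩ := mem_image.1 hh
    have g1 : (i : ℝ) ≤ M := by exact_mod_cast (mem_range.1 hi).le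
    have g2 : (i : ℝ) * D ≤ M * (2 * (L + 3) * Real.log y) :=
      mul_le_mul g1 hD2 (Nat.cast_nonneg _) (Nat.cast_nonneg _)
    have g3 : 1 * Real.log y ≤ M * Real.log y := mul_le_mul_of_nonneg_right hM3 (by linarith)
    have g4 : 0 ≤ l1 * Real.log y := mul_nonneg (by linarith) (by linarith)
    have g5 : lam * Real.log y = M * (2 * (L + 3) * Real.log y) + 2 * (M * Real.log y) +
        l1 * Real.log y := by
      rw [hlam]
      ring
    rw [g5]
    push_cast
    linarith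
  have hHs' : ∀ h ∈ H, ∀ h' ∈ H, h < h' → h + D ≤ h' := by
    intro h hh h' hh' hlt
    rw [hH] at hh hh'
    obtain ⟨i, hi, rfl⟩ := mem_image.1 hh
    obtain ⟨j, hj, rfl⟩ := mem_image.1 hh'
    have g1 : i < j := lt_of_mul_lt_mul_right hlt (Nat.zero_le _)
    calc i * D + D = (i + 1) * D := by ring
      _ ≤ j * D := Nat.mul_le_mul_right _ g1
  have hHs : ∀ h ∈ H, ∀ h' ∈ H, h < h' → (h : ℝ) + 1 * Real.log y ≤ h' := by
    intro h hh h' hh' hlt
    have g1 := hHs' h hh h' hh' hlt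
    have g2 : (h : ℝ) + D ≤ h' := by exact_mod_cast g1
    linarith
  have a3 := hx0 y y4 lam (by
      rw [hlam]
      have : 0 ≤ 2 * (M : ℝ) * (L + 4) := by positivity
      linarith) (by
      have := mul_le_mul_of_nonneg_left ly4 hc.le
      linarith) H (by rw [hHc]; exact hM1) hHw hHs
  obtain ⟨l, hl⟩ : ∃ l : ℕ, l = ⌊1 * Real.log y⌋₊ := ⟨_, rfl⟩
  have hl2 : (l : ℝ) ≤ Real.log y := by
    rw [hl, one_mul]
    exact Nat.floor_le (by linarith)
  rw [← hl] at a3
  obtain ⟨W, hW⟩ : ∃ W : ℕ, W = ⌊lam * Real.log y⌋₊ := ⟨_, rfl⟩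
  have hW1 : (W : ℝ) ≤ lam * Real.log y := by
    rw [hW]
    exact Nat.floor_le (by positivity)
  obtain ⟨U, hU⟩ : ∃ U : ℕ, U = ⌈L * Real.log x⌉₊ := ⟨_, rfl⟩
  have hU1 : L * Real.log x ≤ U := hU ▸ Nat.le_ceil _
  have hUD : U + l ≤ D := by
    have h1 : (U : ℝ) < L * Real.log x + 1 := hU ▸ Nat.ceil_lt_add_one (by
      have : 0 ≤ Real.log x := by linarith
      positivity)
    have h2 : ((U + l : ℕ) : ℝ) ≤ D := by
      push_cast
      linarith
    exact_mod_cast h2
  obtain ⟨Nn, hNn⟩ : ∃ Nn : Finset ℕ, Nn = (Ioc (y / 32) y).filter (fun n =>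
    Wd y n lam H l ∧ (∀ h ∈ H, np n h l ≤ 1) ∧ k + 1 ≤ ∑ h ∈ H, np n h l) := ⟨_, rfl⟩
  rw [← hNn] at a3
  obtain ⟨S, hS1, hS2⟩ := Pool.Agent.Helper88.TU.count2 Nn W k U y
    (fun n hn => by
      rw [hNn, mem_filter, mem_Ioc] at hn
      exact hn.1.2)
    (fun n hn => by
      rw [hNn, mem_filter] at hn
      refine chain k n l D U W H hUD hHs' (fun h hh => ?_) ?_ hn.2.2.1 hn.2.2.2
      · rw [hW]
        apply Nat.le_floor
        have := hHw h hh
        push_cast
        linarith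
      · rw [hW]
        exact hn.2.1)
  set T : Set ℕ := {n : ℕ | (Nat.nth Nat.Prime (n + k) : ℝ) ≤ x ∧
        (Nat.nth Nat.Prime (n + k) : ℝ) ≤ Nat.nth Nat.Prime n +
          (A + 2 * (C + 1) ^ 2 * (k : ℝ) ^ 2 * L) * Real.log x ∧
        ∀ i < k, L * Real.log x
          ≤ (Nat.nth Nat.Prime (n + i + 1) : ℝ) - Nat.nth Nat.Prime (n + i) - 1} with hT
  have hfin : T.Finite := by
    refine (Set.finite_le_nat ⌊x⌋₊).subset ?_
    rintro n ⟨hn, -⟩
    have h1 : n ≤ Nat.nth Nat.Prime (n + k) :=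
      (Nat.le_add_right n k).trans
        ((Nat.nth_strictMono Nat.infinite_setOfPred_prime).id_le (n + k))
    exact h1.trans (Nat.le_floor hn)
  have hlx0 : 0 < Real.log x := by linarith
  have hWx : (W : ℝ) ≤ x / 2 :=
    hW1.trans (wx hc hx16 e1 hlx0 (by linarith) ly2 hll hlam2)
  obtain ⟨t, ht⟩ : ∃ t : ℝ, t = 2 * (C + 1) ^ 2 * (k : ℝ) ^ 2 * L + B := ⟨_, rfl⟩
  have hkL : 0 ≤ (k : ℝ) ^ 2 * L := by positivity
  have hlt0 : (C + 1) * lam ≤ t := by
    have g1 : (M : ℝ) * (L + 4) ≤ (C + 1) * (k : ℝ) ^ 2 * (L + 4) :=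
      mul_le_mul_of_nonneg_right hM2 (by linarith)
    have g2 : (C + 1) * lam = 2 * (C + 1) * (M * (L + 4)) + (C + 1) * l1 := by
      rw [hlam]
      ring
    have g3 : 2 * (C + 1) * ((M : ℝ) * (L + 4)) ≤
        2 * (C + 1) * ((C + 1) * (k : ℝ) ^ 2 * (L + 4)) :=
      mul_le_mul_of_nonneg_left g1 (by positivity)
    have g4 : 2 * (C + 1) * ((C + 1) * (k : ℝ) ^ 2 * (L + 4)) + (C + 1) * l1 = t := by
      rw [ht, hB]
      ring
    linarith
  have hClam : 0 ≤ C * lam := mul_nonneg hC.le hlam0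
  have hlt1 : lam ≤ t := by linarith
  have hlt2 : C * lam ≤ t := by linarith
  have ht0 : 0 < t := by
    have : 0 < lam := by
      rw [hlam]
      positivity
    linarith
  have hWt : (W : ℝ) ≤ t * Real.log x := by
    refine hW1.trans ?_
    exact mul_le_mul hlt1 ly2 (by linarith) ht0.le
  have hsub : (S : Set ℕ) ⊆ T := by
    intro s hs
    obtain ⟨b1, b3, b2⟩ := hS2 s hs
    refine ⟨?_, ?_, fun i hi => ?_⟩
    · have c1 : (Nat.nth Nat.Prime (s + k) : ℝ) ≤ y + W := by exact_mod_cast b1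
      linarith
    · have c1 : (Nat.nth Nat.Prime (s + k) : ℝ) ≤ Nat.nth Nat.Prime s + W := by exact_mod_cast b3
      have c5 : t * Real.log x ≤
          (A + 2 * (C + 1) ^ 2 * (k : ℝ) ^ 2 * L) * Real.log x :=
        mul_le_mul_of_nonneg_right (by rw [ht]; linarith) hlx0.le
      linarith
    · have c1 := b2 i hi
      have c2 : (Nat.nth Nat.Prime (s + i) : ℝ) + U + 1 ≤ Nat.nth Nat.Prime (s + i + 1) := by
        exact_mod_cast c1
      linarith
  have hcard : (S.card : ℝ) ≤ (T.ncard : ℝ) := by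
    have := Set.ncard_le_ncard hsub hfin
    rw [Set.ncard_coe_finset] at this
    exact_mod_cast this
  refine le_trans ?_ hcard
  have hS1' : (y : ℝ) * Real.exp (-Real.exp t) ≤ t * Real.log x * S.card := by
    have g0 : (y : ℝ) * Real.exp (-Real.exp t) ≤ y * Real.exp (-Real.exp (C * lam)) := by
      apply mul_le_mul_of_nonneg_left _ (Nat.cast_nonneg _)
      apply Real.exp_le_exp.2
      have := Real.exp_le_exp.2 hlt2
      linarith
    refine (g0.trans a3).trans ?_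
    have h1 := (Nat.cast_le (α := ℝ)).2 hS1
    refine h1.trans ?_
    push_cast
    exact mul_le_mul_of_nonneg_right hWt (Nat.cast_nonneg _)
  -- the final comparison
  have hexp : A * Real.exp (2 * (C + 1) ^ 2 * (k : ℝ) ^ 2 * L) = 3 * Real.exp t := by
    rw [hA, mul_assoc, ← Real.exp_add, ht, add_comm B]
  rw [hexp]
  have hG := gexp ht0
  have hF : (t * Real.log x) * (x / Real.log x * Real.exp (-(3 * Real.exp t))) ≤
      (t * Real.log x) * S.card := by
    refine le_trans ?_ hS1'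
    calc (t * Real.log x) * (x / Real.log x * Real.exp (-(3 * Real.exp t)))
        = x / 4 * (4 * t * Real.exp (-(3 * Real.exp t))) := by
          field_simp
      _ ≤ x / 4 * Real.exp (-Real.exp t) :=
          mul_le_mul_of_nonneg_left hG (by linarith)
      _ ≤ y * Real.exp (-Real.exp t) :=
          mul_le_mul_of_nonneg_right y3 (Real.exp_pos _).le
  exact le_of_mul_le_mul_left hF (by positivity)

end Pool.Agent.Helper36.PX
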